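import Mathlib

set_option autoImplicit false
set_option linter.unusedVariables false
set_option linter.unnecessarySeqFocus false

/-!
Explicit row labelings `U, V` (of `i = 1, …, n`) of the ladders `L_n` for `n = 4 m` and
`n = 4 m + 2`, `m ≥ 2`.  The lemmas `labels0`, `labels2` say that all labels `1, …, 2 n` occur;
the lemmas `sums0`, `sums2` say that all `3 n - 2` sums `s, …, s + 3 n - 3` occur on edges.
-/

namespace Pool.Agent.Helper36.LadderLabels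

/-! ## The labelings for `n = 4 m`, `m ≥ 2` -/

/-- First row, `n = 4 m`. -/
def U0 (m i : ℕ) : ℕ :=
  if i < 2 * m then (if i % 2 = 1 then 2 * m + 1 + i / 2 else 1 + i / 2)
  else if i = 2 * m then 7 * m
  else if i % 2 = 1 then m + 1 + (i - 2 * m) / 2
  else 3 * m + (i - 2 * m) / 2

/-- Second row, `n = 4 m`. -/
def V0 (m i : ℕ) : ℕ :=
  if i < 2 * m - 1 then (if i % 2 = 1 then 4 * m + 1 + i / 2 else 6 * m + i / 2)
  else if i = 2 * m - 1 then 7 * m + 1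
  else if i ≤ 4 * m - 3 then
    (if i % 2 = 0 then 5 * m + (i - 2 * m) / 2 else 7 * m + 1 + (i + 1 - 2 * m) / 2)
  else if i = 4 * m - 2 then 6 * m - 1
  else if i = 4 * m - 1 then 6 * m
  else 1

lemma U0_r0 (m i : ℕ) (hm : 2 ≤ m) (h1 : i < 2 * m) (h2 : i % 2 = 1) :
    U0 m i = 2 * m + 1 + i / 2 := by
  unfold U0
  split_ifs <;> omega

lemma U0_r1 (m i : ℕ) (hm : 2 ≤ m) (h1 : i < 2 * m) (h2 : i % 2 = 0) :
    U0 m i = 1 + i / 2 := by
  unfold U0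
  split_ifs <;> omega

lemma U0_r2 (m i : ℕ) (hm : 2 ≤ m) (h1 : i = 2 * m) :
    U0 m i = 7 * m := by
  unfold U0
  split_ifs <;> omega

lemma U0_r3 (m i : ℕ) (hm : 2 ≤ m) (h1 : 2 * m + 1 ≤ i) (h2 : i % 2 = 1) :
    U0 m i = m + 1 + (i - 2 * m) / 2 := by
  unfold U0
  split_ifs <;> omega

lemma U0_r4 (m i : ℕ) (hm : 2 ≤ m) (h1 : 2 * m + 1 ≤ i) (h2 : i % 2 = 0) :
    U0 m i = 3 * m + (i - 2 * m) / 2 := by
  unfold U0
  split_ifs <;> omega

lemma V0_r0 (m i : ℕ) (hm : 2 ≤ m) (h1 : i ≤ 2 * m - 2) (h2 : i % 2 = 1) :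
    V0 m i = 4 * m + 1 + i / 2 := by
  unfold V0
  split_ifs <;> omega

lemma V0_r1 (m i : ℕ) (hm : 2 ≤ m) (h1 : i ≤ 2 * m - 2) (h2 : i % 2 = 0) :
    V0 m i = 6 * m + i / 2 := by
  unfold V0
  split_ifs <;> omega

lemma V0_r2 (m i : ℕ) (hm : 2 ≤ m) (h1 : i = 2 * m - 1) :
    V0 m i = 7 * m + 1 := by
  unfold V0
  split_ifs <;> omega

lemma V0_r3 (m i : ℕ) (hm : 2 ≤ m) (h1 : 2 * m ≤ i) (h2 : i ≤ 4 * m - 3) (h3 : i % 2 = 0) :
    V0 m i = 5 * m + (i - 2 * m) / 2 := by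
  unfold V0
  split_ifs <;> omega

lemma V0_r4 (m i : ℕ) (hm : 2 ≤ m) (h1 : 2 * m ≤ i) (h2 : i ≤ 4 * m - 3) (h3 : i % 2 = 1) :
    V0 m i = 7 * m + 1 + (i + 1 - 2 * m) / 2 := by
  unfold V0
  split_ifs <;> omega

lemma V0_r5 (m i : ℕ) (hm : 2 ≤ m) (h1 : i = 4 * m - 2) :
    V0 m i = 6 * m - 1 := by
  unfold V0
  split_ifs <;> omega

lemma V0_r6 (m i : ℕ) (hm : 2 ≤ m) (h1 : i = 4 * m - 1) :
    V0 m i = 6 * m := by
  unfold V0
  split_ifs <;> omega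

lemma V0_r7 (m i : ℕ) (hm : 2 ≤ m) (h1 : i = 4 * m) :
    V0 m i = 1 := by
  unfold V0
  split_ifs <;> omega

lemma labels0 (m : ℕ) (hm : 2 ≤ m) (l : ℕ) (h1 : 1 ≤ l) (h2 : l ≤ 2 * (4 * m)) :
    ∃ i, 1 ≤ i ∧ i ≤ 4 * m ∧ (U0 m i = l ∨ V0 m i = l) := by
  by_cases c0 : l = 1
  · refine ⟨4 * m, by omega, by omega, Or.inr ?_⟩
    rw [V0_r7 m _ hm (by omega)]
    omega
  by_cases c1 : l ≤ m
  · refine ⟨2 * (l - 1), by omega, by omega, Or.inl ?_⟩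
    rw [U0_r1 m _ hm (by omega) (by omega)]
    omega
  by_cases c2 : l ≤ 2 * m
  · refine ⟨2 * m + 1 + 2 * (l - m - 1), by omega, by omega, Or.inl ?_⟩
    rw [U0_r3 m _ hm (by omega) (by omega)]
    omega
  by_cases c3 : l ≤ 3 * m
  · refine ⟨2 * (l - 2 * m - 1) + 1, by omega, by omega, Or.inl ?_⟩
    rw [U0_r0 m _ hm (by omega) (by omega)]
    omega
  by_cases c4 : l ≤ 4 * m
  · refine ⟨2 * m + 2 * (l - 3 * m), by omega, by omega, Or.inl ?_⟩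
    rw [U0_r4 m _ hm (by omega) (by omega)]
    omega
  by_cases c5 : l ≤ 5 * m - 1
  · refine ⟨2 * (l - 4 * m - 1) + 1, by omega, by omega, Or.inr ?_⟩
    rw [V0_r0 m _ hm (by omega) (by omega)]
    omega
  by_cases c6 : l ≤ 6 * m - 2
  · refine ⟨2 * m + 2 * (l - 5 * m), by omega, by omega, Or.inr ?_⟩
    rw [V0_r3 m _ hm (by omega) (by omega) (by omega)]
    omega
  by_cases c7 : l = 6 * m - 1
  · refine ⟨4 * m - 2, by omega, by omega, Or.inr ?_⟩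
    rw [V0_r5 m _ hm (by omega)]
    omega
  by_cases c8 : l = 6 * m
  · refine ⟨4 * m - 1, by omega, by omega, Or.inr ?_⟩
    rw [V0_r6 m _ hm (by omega)]
    omega
  by_cases c9 : l ≤ 7 * m - 1
  · refine ⟨2 * (l - 6 * m), by omega, by omega, Or.inr ?_⟩
    rw [V0_r1 m _ hm (by omega) (by omega)]
    omega
  by_cases c10 : l = 7 * m
  · refine ⟨2 * m, by omega, by omega, Or.inl ?_⟩
    rw [U0_r2 m _ hm (by omega)]
    omega
  by_cases c11 : l = 7 * m + 1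
  · refine ⟨2 * m - 1, by omega, by omega, Or.inr ?_⟩
    rw [V0_r2 m _ hm (by omega)]
    omega
  refine ⟨2 * m - 1 + 2 * (l - 7 * m - 1), by omega, by omega, Or.inr ?_⟩
  rw [V0_r4 m _ hm (by omega) (by omega) (by omega)]
  omega

lemma s0_0 (m i : ℕ) (hm : 2 ≤ m) (h1 : 1 ≤ i) (h2 : i ≤ 2 * m - 2) :
    U0 m i + U0 m (i + 1) = 2 * m + 2 + i := by
  by_cases hp : i % 2 = 1
  · rw [U0_r0 m i hm (by omega) (by omega), U0_r1 m (i + 1) hm (by omega) (by omega)]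
    all_goals omega
  · rw [U0_r1 m i hm (by omega) (by omega), U0_r0 m (i + 1) hm (by omega) (by omega)]
    all_goals omega

lemma s0_1 (m i : ℕ) (hm : 2 ≤ m) (h1 : i = 4 * m) :
    U0 m i + V0 m i = 4 * m + 1 := by
  rw [U0_r4 m i hm (by omega) (by omega), V0_r7 m i hm (by omega)]
  all_goals omega

lemma s0_2 (m i : ℕ) (hm : 2 ≤ m) (h1 : 2 * m + 1 ≤ i) (h2 : i ≤ 4 * m - 1) :
    U0 m i + U0 m (i + 1) = 4 * m + 1 + (i - 2 * m) := by
  by_cases hp : i % 2 = 1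
  · rw [U0_r3 m i hm (by omega) (by omega), U0_r4 m (i + 1) hm (by omega) (by omega)]
    all_goals omega
  · rw [U0_r4 m i hm (by omega) (by omega), U0_r3 m (i + 1) hm (by omega) (by omega)]
    all_goals omega

lemma s0_3 (m i : ℕ) (hm : 2 ≤ m) (h1 : i = 4 * m - 1) :
    V0 m i + V0 m (i + 1) = 6 * m + 1 := by
  rw [V0_r6 m i hm (by omega), V0_r7 m (i + 1) hm (by omega)]
  all_goals omega

lemma s0_4 (m i : ℕ) (hm : 2 ≤ m) (h1 : 1 ≤ i) (h2 : i ≤ 2 * m - 2) :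
    U0 m i + V0 m i = 6 * m + 1 + i := by
  by_cases hp : i % 2 = 1
  · rw [U0_r0 m i hm (by omega) (by omega), V0_r0 m i hm (by omega) (by omega)]
    all_goals omega
  · rw [U0_r1 m i hm (by omega) (by omega), V0_r1 m i hm (by omega) (by omega)]
    all_goals omega

lemma s0_5 (m i : ℕ) (hm : 2 ≤ m) (h1 : i = 4 * m - 1) :
    U0 m i + V0 m i = 8 * m := by
  rw [U0_r3 m i hm (by omega) (by omega), V0_r6 m i hm (by omega)]
  all_goals omega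

lemma s0_6 (m i : ℕ) (hm : 2 ≤ m) (h1 : i = 2 * m) :
    U0 m i + U0 m (i + 1) = 8 * m + 1 := by
  rw [U0_r2 m i hm (by omega), U0_r3 m (i + 1) hm (by omega) (by omega)]
  all_goals omega

lemma s0_7 (m i : ℕ) (hm : 2 ≤ m) (h1 : i = 4 * m - 2) :
    U0 m i + V0 m i = 10 * m - 2 := by
  rw [U0_r4 m i hm (by omega) (by omega), V0_r5 m i hm (by omega)]
  all_goals omega

lemma s0_8 (m i : ℕ) (hm : 2 ≤ m) (h1 : 2 * m + 2 ≤ i) (h2 : i ≤ 4 * m - 4) (h3 : i % 2 = 0) :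
    U0 m i + V0 m i = 8 * m + (i - 2 * m) := by
  rw [U0_r4 m i hm (by omega) (by omega), V0_r3 m i hm (by omega) (by omega) (by omega)]
  all_goals omega

lemma s0_9 (m i : ℕ) (hm : 2 ≤ m) (h1 : 2 * m + 1 ≤ i) (h2 : i ≤ 4 * m - 3) (h3 : i % 2 = 1) :
    U0 m i + V0 m i = 8 * m + 2 + (i - 2 * m) := by
  rw [U0_r3 m i hm (by omega) (by omega), V0_r4 m i hm (by omega) (by omega) (by omega)]
  all_goals omega

lemma s0_10 (m i : ℕ) (hm : 2 ≤ m) (h1 : i = 2 * m - 1) :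
    U0 m i + U0 m (i + 1) = 10 * m := by
  rw [U0_r0 m i hm (by omega) (by omega), U0_r2 m (i + 1) hm (by omega)]
  all_goals omega

lemma s0_11 (m i : ℕ) (hm : 2 ≤ m) (h1 : i = 2 * m - 1) :
    U0 m i + V0 m i = 10 * m + 1 := by
  rw [U0_r0 m i hm (by omega) (by omega), V0_r2 m i hm (by omega)]
  all_goals omega

lemma s0_12 (m i : ℕ) (hm : 2 ≤ m) (h1 : 1 ≤ i) (h2 : i ≤ 2 * m - 3) :
    V0 m i + V0 m (i + 1) = 10 * m + 1 + i := by
  by_cases hp : i % 2 = 1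
  · rw [V0_r0 m i hm (by omega) (by omega), V0_r1 m (i + 1) hm (by omega) (by omega)]
    all_goals omega
  · rw [V0_r1 m i hm (by omega) (by omega), V0_r0 m (i + 1) hm (by omega) (by omega)]
    all_goals omega

lemma s0_13 (m i : ℕ) (hm : 2 ≤ m) (h1 : i = 4 * m - 2) :
    V0 m i + V0 m (i + 1) = 12 * m - 1 := by
  rw [V0_r5 m i hm (by omega), V0_r6 m (i + 1) hm (by omega)]
  all_goals omega

lemma s0_14 (m i : ℕ) (hm : 2 ≤ m) (h1 : i = 2 * m) :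
    U0 m i + V0 m i = 12 * m := by
  rw [U0_r2 m i hm (by omega), V0_r3 m i hm (by omega) (by omega) (by omega)]
  all_goals omega

lemma s0_15 (m i : ℕ) (hm : 2 ≤ m) (h1 : i = 2 * m - 1) :
    V0 m i + V0 m (i + 1) = 12 * m + 1 := by
  rw [V0_r2 m i hm (by omega), V0_r3 m (i + 1) hm (by omega) (by omega) (by omega)]
  all_goals omega

lemma s0_16 (m i : ℕ) (hm : 2 ≤ m) (h1 : 2 * m ≤ i) (h2 : i ≤ 4 * m - 4) :
    V0 m i + V0 m (i + 1) = 12 * m + 1 + (i - (2 * m - 1)) := by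
  by_cases hp : i % 2 = 1
  · rw [V0_r4 m i hm (by omega) (by omega) (by omega), V0_r3 m (i + 1) hm (by omega) (by omega) (by omega)]
    all_goals omega
  · rw [V0_r3 m i hm (by omega) (by omega) (by omega), V0_r4 m (i + 1) hm (by omega) (by omega) (by omega)]
    all_goals omega

lemma s0_17 (m i : ℕ) (hm : 2 ≤ m) (h1 : i = 4 * m - 3) :
    V0 m i + V0 m (i + 1) = 14 * m - 1 := by
  rw [V0_r4 m i hm (by omega) (by omega) (by omega), V0_r5 m (i + 1) hm (by omega)]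
  all_goals omega

lemma s0_18 (m i : ℕ) (hm : 2 ≤ m) (h1 : i = 2 * m - 2) :
    V0 m i + V0 m (i + 1) = 14 * m := by
  rw [V0_r1 m i hm (by omega) (by omega), V0_r2 m (i + 1) hm (by omega)]
  all_goals omega

lemma sums0 (m : ℕ) (hm : 2 ≤ m) (t : ℕ) (h1 : 2 * m + 3 ≤ t)
    (h2 : t < 2 * m + 3 + (3 * (4 * m) - 2)) :
    ∃ i, 1 ≤ i ∧ i ≤ 4 * m ∧ (U0 m i + V0 m i = t ∨
      (i < 4 * m ∧ (U0 m i + U0 m (i + 1) = t ∨ V0 m i + V0 m (i + 1) = t))) := by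
  by_cases c0 : t ≤ 4 * m
  · refine ⟨t - 2 * m - 2, by omega, by omega, Or.inr ⟨by omega, Or.inl ?_⟩⟩
    rw [s0_0 m _ hm (by omega) (by omega)]
    omega
  by_cases c1 : t = 4 * m + 1
  · refine ⟨4 * m, by omega, by omega, Or.inl ?_⟩
    rw [s0_1 m _ hm (by omega)]
    omega
  by_cases c2 : t ≤ 6 * m
  · refine ⟨2 * m + (t - 4 * m - 1), by omega, by omega, Or.inr ⟨by omega, Or.inl ?_⟩⟩
    rw [s0_2 m _ hm (by omega) (by omega)]
    omega
  by_cases c3 : t = 6 * m + 1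
  · refine ⟨4 * m - 1, by omega, by omega, Or.inr ⟨by omega, Or.inr ?_⟩⟩
    rw [s0_3 m _ hm (by omega)]
    omega
  by_cases c4 : t ≤ 8 * m - 1
  · refine ⟨t - 6 * m - 1, by omega, by omega, Or.inl ?_⟩
    rw [s0_4 m _ hm (by omega) (by omega)]
    omega
  by_cases c5 : t = 8 * m
  · refine ⟨4 * m - 1, by omega, by omega, Or.inl ?_⟩
    rw [s0_5 m _ hm (by omega)]
    omega
  by_cases c6 : t = 8 * m + 1
  · refine ⟨2 * m, by omega, by omega, Or.inr ⟨by omega, Or.inl ?_⟩⟩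
    rw [s0_6 m _ hm (by omega)]
    omega
  by_cases c7 : t = 10 * m - 2
  · refine ⟨4 * m - 2, by omega, by omega, Or.inl ?_⟩
    rw [s0_7 m _ hm (by omega)]
    omega
  by_cases c8 : t ≤ 10 * m - 1 ∧ t % 2 = 0
  · refine ⟨2 * m + (t - 8 * m), by omega, by omega, Or.inl ?_⟩
    rw [s0_8 m _ hm (by omega) (by omega) (by omega)]
    omega
  by_cases c9 : t ≤ 10 * m - 1 ∧ t % 2 = 1
  · refine ⟨2 * m + (t - 8 * m - 2), by omega, by omega, Or.inl ?_⟩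
    rw [s0_9 m _ hm (by omega) (by omega) (by omega)]
    omega
  by_cases c10 : t = 10 * m
  · refine ⟨2 * m - 1, by omega, by omega, Or.inr ⟨by omega, Or.inl ?_⟩⟩
    rw [s0_10 m _ hm (by omega)]
    omega
  by_cases c11 : t = 10 * m + 1
  · refine ⟨2 * m - 1, by omega, by omega, Or.inl ?_⟩
    rw [s0_11 m _ hm (by omega)]
    omega
  by_cases c12 : t ≤ 12 * m - 2
  · refine ⟨t - 10 * m - 1, by omega, by omega, Or.inr ⟨by omega, Or.inr ?_⟩⟩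
    rw [s0_12 m _ hm (by omega) (by omega)]
    omega
  by_cases c13 : t = 12 * m - 1
  · refine ⟨4 * m - 2, by omega, by omega, Or.inr ⟨by omega, Or.inr ?_⟩⟩
    rw [s0_13 m _ hm (by omega)]
    omega
  by_cases c14 : t = 12 * m
  · refine ⟨2 * m, by omega, by omega, Or.inl ?_⟩
    rw [s0_14 m _ hm (by omega)]
    omega
  by_cases c15 : t = 12 * m + 1
  · refine ⟨2 * m - 1, by omega, by omega, Or.inr ⟨by omega, Or.inr ?_⟩⟩
    rw [s0_15 m _ hm (by omega)]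
    omega
  by_cases c16 : t ≤ 14 * m - 2
  · refine ⟨2 * m - 1 + (t - 12 * m - 1), by omega, by omega, Or.inr ⟨by omega, Or.inr ?_⟩⟩
    rw [s0_16 m _ hm (by omega) (by omega)]
    omega
  by_cases c17 : t = 14 * m - 1
  · refine ⟨4 * m - 3, by omega, by omega, Or.inr ⟨by omega, Or.inr ?_⟩⟩
    rw [s0_17 m _ hm (by omega)]
    omega
  refine ⟨2 * m - 2, by omega, by omega, Or.inr ⟨by omega, Or.inr ?_⟩⟩
  rw [s0_18 m _ hm (by omega)]
  omega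

/-! ## The labelings for `n = 4 m + 2`, `m ≥ 2` -/

/-- First row, `n = 4 m + 2`. -/
def U2 (m i : ℕ) : ℕ :=
  if i ≤ 2 * m - 2 then (if i % 2 = 1 then (i + 1) / 2 else 2 * m + 2 + i / 2)
  else if i = 2 * m - 1 then 3 * m + 2
  else if i = 2 * m then 7 * m + 3
  else if i ≤ 4 * m - 2 then
    (if i % 2 = 1 then 3 * m + 3 + (i - 2 * m - 1) / 2 else m + 1 + (i - 2 * m - 2) / 2)
  else if i = 4 * m - 1 then 8 * m + 4
  else if i = 4 * m then 6 * m + 2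
  else if i = 4 * m + 1 then 4 * m + 2
  else 2 * m + 2

/-- Second row, `n = 4 m + 2`. -/
def V2 (m i : ℕ) : ℕ :=
  if i ≤ 2 * m - 2 then (if i % 2 = 1 then 6 * m + 4 + i / 2 else 4 * m + 2 + i / 2)
  else if i = 2 * m - 1 then m
  else if i = 2 * m then 7 * m + 4
  else if i ≤ 4 * m - 1 then
    (if i % 2 = 1 then 5 * m + 2 + (i - 2 * m - 1) / 2 else 7 * m + 5 + (i - 2 * m - 2) / 2)
  else if i = 4 * m then 6 * m + 3
  else if i = 4 * m + 1 then 2 * m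
  else 2 * m + 1

lemma U2_r0 (m i : ℕ) (hm : 2 ≤ m) (h1 : i ≤ 2 * m - 2) (h2 : i % 2 = 1) :
    U2 m i = (i + 1) / 2 := by
  unfold U2
  split_ifs <;> omega

lemma U2_r1 (m i : ℕ) (hm : 2 ≤ m) (h1 : i ≤ 2 * m - 2) (h2 : i % 2 = 0) :
    U2 m i = 2 * m + 2 + i / 2 := by
  unfold U2
  split_ifs <;> omega

lemma U2_r2 (m i : ℕ) (hm : 2 ≤ m) (h1 : i = 2 * m - 1) :
    U2 m i = 3 * m + 2 := by
  unfold U2
  split_ifs <;> omega

lemma U2_r3 (m i : ℕ) (hm : 2 ≤ m) (h1 : i = 2 * m) :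
    U2 m i = 7 * m + 3 := by
  unfold U2
  split_ifs <;> omega

lemma U2_r4 (m i : ℕ) (hm : 2 ≤ m) (h1 : 2 * m + 1 ≤ i) (h2 : i ≤ 4 * m - 2) (h3 : i % 2 = 1) :
    U2 m i = 3 * m + 3 + (i - 2 * m - 1) / 2 := by
  unfold U2
  split_ifs <;> omega

lemma U2_r5 (m i : ℕ) (hm : 2 ≤ m) (h1 : 2 * m + 1 ≤ i) (h2 : i ≤ 4 * m - 2) (h3 : i % 2 = 0) :
    U2 m i = m + 1 + (i - 2 * m - 2) / 2 := by
  unfold U2
  split_ifs <;> omega

lemma U2_r6 (m i : ℕ) (hm : 2 ≤ m) (h1 : i = 4 * m - 1) :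
    U2 m i = 8 * m + 4 := by
  unfold U2
  split_ifs <;> omega

lemma U2_r7 (m i : ℕ) (hm : 2 ≤ m) (h1 : i = 4 * m) :
    U2 m i = 6 * m + 2 := by
  unfold U2
  split_ifs <;> omega

lemma U2_r8 (m i : ℕ) (hm : 2 ≤ m) (h1 : i = 4 * m + 1) :
    U2 m i = 4 * m + 2 := by
  unfold U2
  split_ifs <;> omega

lemma U2_r9 (m i : ℕ) (hm : 2 ≤ m) (h1 : i = 4 * m + 2) :
    U2 m i = 2 * m + 2 := by
  unfold U2
  split_ifs <;> omega

lemma V2_r0 (m i : ℕ) (hm : 2 ≤ m) (h1 : i ≤ 2 * m - 2) (h2 : i % 2 = 1) :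
    V2 m i = 6 * m + 4 + i / 2 := by
  unfold V2
  split_ifs <;> omega

lemma V2_r1 (m i : ℕ) (hm : 2 ≤ m) (h1 : i ≤ 2 * m - 2) (h2 : i % 2 = 0) :
    V2 m i = 4 * m + 2 + i / 2 := by
  unfold V2
  split_ifs <;> omega

lemma V2_r2 (m i : ℕ) (hm : 2 ≤ m) (h1 : i = 2 * m - 1) :
    V2 m i = m := by
  unfold V2
  split_ifs <;> omega

lemma V2_r3 (m i : ℕ) (hm : 2 ≤ m) (h1 : i = 2 * m) :
    V2 m i = 7 * m + 4 := by
  unfold V2
  split_ifs <;> omega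

lemma V2_r4 (m i : ℕ) (hm : 2 ≤ m) (h1 : 2 * m + 1 ≤ i) (h2 : i ≤ 4 * m - 1) (h3 : i % 2 = 1) :
    V2 m i = 5 * m + 2 + (i - 2 * m - 1) / 2 := by
  unfold V2
  split_ifs <;> omega

lemma V2_r5 (m i : ℕ) (hm : 2 ≤ m) (h1 : 2 * m + 1 ≤ i) (h2 : i ≤ 4 * m - 1) (h3 : i % 2 = 0) :
    V2 m i = 7 * m + 5 + (i - 2 * m - 2) / 2 := by
  unfold V2
  split_ifs <;> omega

lemma V2_r6 (m i : ℕ) (hm : 2 ≤ m) (h1 : i = 4 * m) :
    V2 m i = 6 * m + 3 := by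
  unfold V2
  split_ifs <;> omega

lemma V2_r7 (m i : ℕ) (hm : 2 ≤ m) (h1 : i = 4 * m + 1) :
    V2 m i = 2 * m := by
  unfold V2
  split_ifs <;> omega

lemma V2_r8 (m i : ℕ) (hm : 2 ≤ m) (h1 : i = 4 * m + 2) :
    V2 m i = 2 * m + 1 := by
  unfold V2
  split_ifs <;> omega

lemma labels2 (m : ℕ) (hm : 2 ≤ m) (l : ℕ) (h1 : 1 ≤ l) (h2 : l ≤ 2 * (4 * m + 2)) :
    ∃ i, 1 ≤ i ∧ i ≤ 4 * m + 2 ∧ (U2 m i = l ∨ V2 m i = l) := by
  by_cases c0 : l ≤ m - 1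
  · refine ⟨2 * l - 1, by omega, by omega, Or.inl ?_⟩
    rw [U2_r0 m _ hm (by omega) (by omega)]
    omega
  by_cases c1 : l = m
  · refine ⟨2 * m - 1, by omega, by omega, Or.inr ?_⟩
    rw [V2_r2 m _ hm (by omega)]
    omega
  by_cases c2 : l ≤ 2 * m - 1
  · refine ⟨2 * m + 2 + 2 * (l - m - 1), by omega, by omega, Or.inl ?_⟩
    rw [U2_r5 m _ hm (by omega) (by omega) (by omega)]
    omega
  by_cases c3 : l = 2 * m
  · refine ⟨4 * m + 1, by omega, by omega, Or.inr ?_⟩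
    rw [V2_r7 m _ hm (by omega)]
    omega
  by_cases c4 : l = 2 * m + 1
  · refine ⟨4 * m + 2, by omega, by omega, Or.inr ?_⟩
    rw [V2_r8 m _ hm (by omega)]
    omega
  by_cases c5 : l = 2 * m + 2
  · refine ⟨4 * m + 2, by omega, by omega, Or.inl ?_⟩
    rw [U2_r9 m _ hm (by omega)]
    omega
  by_cases c6 : l ≤ 3 * m + 1
  · refine ⟨2 * (l - 2 * m - 2), by omega, by omega, Or.inl ?_⟩
    rw [U2_r1 m _ hm (by omega) (by omega)]
    omega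
  by_cases c7 : l = 3 * m + 2
  · refine ⟨2 * m - 1, by omega, by omega, Or.inl ?_⟩
    rw [U2_r2 m _ hm (by omega)]
    omega
  by_cases c8 : l ≤ 4 * m + 1
  · refine ⟨2 * m + 1 + 2 * (l - 3 * m - 3), by omega, by omega, Or.inl ?_⟩
    rw [U2_r4 m _ hm (by omega) (by omega) (by omega)]
    omega
  by_cases c9 : l = 4 * m + 2
  · refine ⟨4 * m + 1, by omega, by omega, Or.inl ?_⟩
    rw [U2_r8 m _ hm (by omega)]
    omega
  by_cases c10 : l ≤ 5 * m + 1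
  · refine ⟨2 * (l - 4 * m - 2), by omega, by omega, Or.inr ?_⟩
    rw [V2_r1 m _ hm (by omega) (by omega)]
    omega
  by_cases c11 : l ≤ 6 * m + 1
  · refine ⟨2 * m + 1 + 2 * (l - 5 * m - 2), by omega, by omega, Or.inr ?_⟩
    rw [V2_r4 m _ hm (by omega) (by omega) (by omega)]
    omega
  by_cases c12 : l = 6 * m + 2
  · refine ⟨4 * m, by omega, by omega, Or.inl ?_⟩
    rw [U2_r7 m _ hm (by omega)]
    omega
  by_cases c13 : l = 6 * m + 3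
  · refine ⟨4 * m, by omega, by omega, Or.inr ?_⟩
    rw [V2_r6 m _ hm (by omega)]
    omega
  by_cases c14 : l ≤ 7 * m + 2
  · refine ⟨2 * (l - 6 * m - 4) + 1, by omega, by omega, Or.inr ?_⟩
    rw [V2_r0 m _ hm (by omega) (by omega)]
    omega
  by_cases c15 : l = 7 * m + 3
  · refine ⟨2 * m, by omega, by omega, Or.inl ?_⟩
    rw [U2_r3 m _ hm (by omega)]
    omega
  by_cases c16 : l = 7 * m + 4
  · refine ⟨2 * m, by omega, by omega, Or.inr ?_⟩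
    rw [V2_r3 m _ hm (by omega)]
    omega
  by_cases c17 : l ≤ 8 * m + 3
  · refine ⟨2 * m + 2 + 2 * (l - 7 * m - 5), by omega, by omega, Or.inr ?_⟩
    rw [V2_r5 m _ hm (by omega) (by omega) (by omega)]
    omega
  refine ⟨4 * m - 1, by omega, by omega, Or.inl ?_⟩
  rw [U2_r6 m _ hm (by omega)]
  omega

lemma s2_0 (m i : ℕ) (hm : 2 ≤ m) (h1 : 1 ≤ i) (h2 : i ≤ 2 * m - 3) :
    U2 m i + U2 m (i + 1) = 2 * m + 3 + i := by
  by_cases hp : i % 2 = 1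
  · rw [U2_r0 m i hm (by omega) (by omega), U2_r1 m (i + 1) hm (by omega) (by omega)]
    all_goals omega
  · rw [U2_r1 m i hm (by omega) (by omega), U2_r0 m (i + 1) hm (by omega) (by omega)]
    all_goals omega

lemma s2_1 (m i : ℕ) (hm : 2 ≤ m) (h1 : i = 4 * m + 1) :
    V2 m i + V2 m (i + 1) = 4 * m + 1 := by
  rw [V2_r7 m i hm (by omega), V2_r8 m (i + 1) hm (by omega)]
  all_goals omega

lemma s2_2 (m i : ℕ) (hm : 2 ≤ m) (h1 : i = 2 * m - 1) :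
    U2 m i + V2 m i = 4 * m + 2 := by
  rw [U2_r2 m i hm (by omega), V2_r2 m i hm (by omega)]
  all_goals omega

lemma s2_3 (m i : ℕ) (hm : 2 ≤ m) (h1 : i = 4 * m + 2) :
    U2 m i + V2 m i = 4 * m + 3 := by
  rw [U2_r9 m i hm (by omega), V2_r8 m i hm (by omega)]
  all_goals omega

lemma s2_4 (m i : ℕ) (hm : 2 ≤ m) (h1 : 2 * m + 1 ≤ i) (h2 : i ≤ 4 * m - 3) :
    U2 m i + U2 m (i + 1) = 4 * m + 4 + (i - 2 * m - 1) := by
  by_cases hp : i % 2 = 1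
  · rw [U2_r4 m i hm (by omega) (by omega) (by omega), U2_r5 m (i + 1) hm (by omega) (by omega) (by omega)]
    all_goals omega
  · rw [U2_r5 m i hm (by omega) (by omega) (by omega), U2_r4 m (i + 1) hm (by omega) (by omega) (by omega)]
    all_goals omega

lemma s2_5 (m i : ℕ) (hm : 2 ≤ m) (h1 : i = 2 * m - 2) :
    V2 m i + V2 m (i + 1) = 6 * m + 1 := by
  rw [V2_r1 m i hm (by omega) (by omega), V2_r2 m (i + 1) hm (by omega)]
  all_goals omega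

lemma s2_6 (m i : ℕ) (hm : 2 ≤ m) (h1 : i = 4 * m + 1) :
    U2 m i + V2 m i = 6 * m + 2 := by
  rw [U2_r8 m i hm (by omega), V2_r7 m i hm (by omega)]
  all_goals omega

lemma s2_7 (m i : ℕ) (hm : 2 ≤ m) (h1 : i = 2 * m - 2) :
    U2 m i + U2 m (i + 1) = 6 * m + 3 := by
  rw [U2_r1 m i hm (by omega) (by omega), U2_r2 m (i + 1) hm (by omega)]
  all_goals omega

lemma s2_8 (m i : ℕ) (hm : 2 ≤ m) (h1 : i = 4 * m + 1) :
    U2 m i + U2 m (i + 1) = 6 * m + 4 := by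
  rw [U2_r8 m i hm (by omega), U2_r9 m (i + 1) hm (by omega)]
  all_goals omega

lemma s2_9 (m i : ℕ) (hm : 2 ≤ m) (h1 : 1 ≤ i) (h2 : i ≤ 2 * m - 2) :
    U2 m i + V2 m i = 6 * m + 4 + i := by
  by_cases hp : i % 2 = 1
  · rw [U2_r0 m i hm (by omega) (by omega), V2_r0 m i hm (by omega) (by omega)]
    all_goals omega
  · rw [U2_r1 m i hm (by omega) (by omega), V2_r1 m i hm (by omega) (by omega)]
    all_goals omega

lemma s2_10 (m i : ℕ) (hm : 2 ≤ m) (h1 : i = 4 * m) :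
    V2 m i + V2 m (i + 1) = 8 * m + 3 := by
  rw [V2_r6 m i hm (by omega), V2_r7 m (i + 1) hm (by omega)]
  all_goals omega

lemma s2_11 (m i : ℕ) (hm : 2 ≤ m) (h1 : i = 2 * m - 1) :
    V2 m i + V2 m (i + 1) = 8 * m + 4 := by
  rw [V2_r2 m i hm (by omega), V2_r3 m (i + 1) hm (by omega)]
  all_goals omega

lemma s2_12 (m i : ℕ) (hm : 2 ≤ m) (h1 : 2 * m + 1 ≤ i) (h2 : i ≤ 4 * m - 2) :
    U2 m i + V2 m i = 8 * m + 5 + (i - 2 * m - 1) := by
  by_cases hp : i % 2 = 1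
  · rw [U2_r4 m i hm (by omega) (by omega) (by omega), V2_r4 m i hm (by omega) (by omega) (by omega)]
    all_goals omega
  · rw [U2_r5 m i hm (by omega) (by omega) (by omega), V2_r5 m i hm (by omega) (by omega) (by omega)]
    all_goals omega

lemma s2_13 (m i : ℕ) (hm : 2 ≤ m) (h1 : i = 4 * m - 2) :
    U2 m i + U2 m (i + 1) = 10 * m + 3 := by
  rw [U2_r5 m i hm (by omega) (by omega) (by omega), U2_r6 m (i + 1) hm (by omega)]
  all_goals omega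

lemma s2_14 (m i : ℕ) (hm : 2 ≤ m) (h1 : i = 4 * m) :
    U2 m i + U2 m (i + 1) = 10 * m + 4 := by
  rw [U2_r7 m i hm (by omega), U2_r8 m (i + 1) hm (by omega)]
  all_goals omega

lemma s2_15 (m i : ℕ) (hm : 2 ≤ m) (h1 : i = 2 * m - 1) :
    U2 m i + U2 m (i + 1) = 10 * m + 5 := by
  rw [U2_r2 m i hm (by omega), U2_r3 m (i + 1) hm (by omega)]
  all_goals omega

lemma s2_16 (m i : ℕ) (hm : 2 ≤ m) (h1 : i = 2 * m) :
    U2 m i + U2 m (i + 1) = 10 * m + 6 := by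
  rw [U2_r3 m i hm (by omega), U2_r4 m (i + 1) hm (by omega) (by omega) (by omega)]
  all_goals omega

lemma s2_17 (m i : ℕ) (hm : 2 ≤ m) (h1 : 1 ≤ i) (h2 : i ≤ 2 * m - 3) :
    V2 m i + V2 m (i + 1) = 10 * m + 6 + i := by
  by_cases hp : i % 2 = 1
  · rw [V2_r0 m i hm (by omega) (by omega), V2_r1 m (i + 1) hm (by omega) (by omega)]
    all_goals omega
  · rw [V2_r1 m i hm (by omega) (by omega), V2_r0 m (i + 1) hm (by omega) (by omega)]
    all_goals omega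

lemma s2_18 (m i : ℕ) (hm : 2 ≤ m) (h1 : i = 4 * m - 1) :
    V2 m i + V2 m (i + 1) = 12 * m + 4 := by
  rw [V2_r4 m i hm (by omega) (by omega) (by omega), V2_r6 m (i + 1) hm (by omega)]
  all_goals omega

lemma s2_19 (m i : ℕ) (hm : 2 ≤ m) (h1 : i = 4 * m) :
    U2 m i + V2 m i = 12 * m + 5 := by
  rw [U2_r7 m i hm (by omega), V2_r6 m i hm (by omega)]
  all_goals omega

lemma s2_20 (m i : ℕ) (hm : 2 ≤ m) (h1 : i = 2 * m) :
    V2 m i + V2 m (i + 1) = 12 * m + 6 := by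
  rw [V2_r3 m i hm (by omega), V2_r4 m (i + 1) hm (by omega) (by omega) (by omega)]
  all_goals omega

lemma s2_21 (m i : ℕ) (hm : 2 ≤ m) (h1 : 2 * m + 1 ≤ i) (h2 : i ≤ 4 * m - 2) :
    V2 m i + V2 m (i + 1) = 12 * m + 7 + (i - 2 * m - 1) := by
  by_cases hp : i % 2 = 1
  · rw [V2_r4 m i hm (by omega) (by omega) (by omega), V2_r5 m (i + 1) hm (by omega) (by omega) (by omega)]
    all_goals omega
  · rw [V2_r5 m i hm (by omega) (by omega) (by omega), V2_r4 m (i + 1) hm (by omega) (by omega) (by omega)]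
    all_goals omega

lemma s2_22 (m i : ℕ) (hm : 2 ≤ m) (h1 : i = 4 * m - 1) :
    U2 m i + V2 m i = 14 * m + 5 := by
  rw [U2_r6 m i hm (by omega), V2_r4 m i hm (by omega) (by omega) (by omega)]
  all_goals omega

lemma s2_23 (m i : ℕ) (hm : 2 ≤ m) (h1 : i = 4 * m - 1) :
    U2 m i + U2 m (i + 1) = 14 * m + 6 := by
  rw [U2_r6 m i hm (by omega), U2_r7 m (i + 1) hm (by omega)]
  all_goals omega

lemma s2_24 (m i : ℕ) (hm : 2 ≤ m) (h1 : i = 2 * m) :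
    U2 m i + V2 m i = 14 * m + 7 := by
  rw [U2_r3 m i hm (by omega), V2_r3 m i hm (by omega)]
  all_goals omega

lemma sums2 (m : ℕ) (hm : 2 ≤ m) (t : ℕ) (h1 : 2 * m + 4 ≤ t)
    (h2 : t < 2 * m + 4 + (3 * (4 * m + 2) - 2)) :
    ∃ i, 1 ≤ i ∧ i ≤ 4 * m + 2 ∧ (U2 m i + V2 m i = t ∨
      (i < 4 * m + 2 ∧ (U2 m i + U2 m (i + 1) = t ∨ V2 m i + V2 m (i + 1) = t))) := by
  by_cases c0 : t ≤ 4 * m
  · refine ⟨t - 2 * m - 3, by omega, by omega, Or.inr ⟨by omega, Or.inl ?_⟩⟩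
    rw [s2_0 m _ hm (by omega) (by omega)]
    omega
  by_cases c1 : t = 4 * m + 1
  · refine ⟨4 * m + 1, by omega, by omega, Or.inr ⟨by omega, Or.inr ?_⟩⟩
    rw [s2_1 m _ hm (by omega)]
    omega
  by_cases c2 : t = 4 * m + 2
  · refine ⟨2 * m - 1, by omega, by omega, Or.inl ?_⟩
    rw [s2_2 m _ hm (by omega)]
    omega
  by_cases c3 : t = 4 * m + 3
  · refine ⟨4 * m + 2, by omega, by omega, Or.inl ?_⟩
    rw [s2_3 m _ hm (by omega)]
    omega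
  by_cases c4 : t ≤ 6 * m
  · refine ⟨2 * m + 1 + (t - 4 * m - 4), by omega, by omega, Or.inr ⟨by omega, Or.inl ?_⟩⟩
    rw [s2_4 m _ hm (by omega) (by omega)]
    omega
  by_cases c5 : t = 6 * m + 1
  · refine ⟨2 * m - 2, by omega, by omega, Or.inr ⟨by omega, Or.inr ?_⟩⟩
    rw [s2_5 m _ hm (by omega)]
    omega
  by_cases c6 : t = 6 * m + 2
  · refine ⟨4 * m + 1, by omega, by omega, Or.inl ?_⟩
    rw [s2_6 m _ hm (by omega)]
    omega
  by_cases c7 : t = 6 * m + 3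
  · refine ⟨2 * m - 2, by omega, by omega, Or.inr ⟨by omega, Or.inl ?_⟩⟩
    rw [s2_7 m _ hm (by omega)]
    omega
  by_cases c8 : t = 6 * m + 4
  · refine ⟨4 * m + 1, by omega, by omega, Or.inr ⟨by omega, Or.inl ?_⟩⟩
    rw [s2_8 m _ hm (by omega)]
    omega
  by_cases c9 : t ≤ 8 * m + 2
  · refine ⟨t - 6 * m - 4, by omega, by omega, Or.inl ?_⟩
    rw [s2_9 m _ hm (by omega) (by omega)]
    omega
  by_cases c10 : t = 8 * m + 3
  · refine ⟨4 * m, by omega, by omega, Or.inr ⟨by omega, Or.inr ?_⟩⟩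
    rw [s2_10 m _ hm (by omega)]
    omega
  by_cases c11 : t = 8 * m + 4
  · refine ⟨2 * m - 1, by omega, by omega, Or.inr ⟨by omega, Or.inr ?_⟩⟩
    rw [s2_11 m _ hm (by omega)]
    omega
  by_cases c12 : t ≤ 10 * m + 2
  · refine ⟨2 * m + 1 + (t - 8 * m - 5), by omega, by omega, Or.inl ?_⟩
    rw [s2_12 m _ hm (by omega) (by omega)]
    omega
  by_cases c13 : t = 10 * m + 3
  · refine ⟨4 * m - 2, by omega, by omega, Or.inr ⟨by omega, Or.inl ?_⟩⟩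
    rw [s2_13 m _ hm (by omega)]
    omega
  by_cases c14 : t = 10 * m + 4
  · refine ⟨4 * m, by omega, by omega, Or.inr ⟨by omega, Or.inl ?_⟩⟩
    rw [s2_14 m _ hm (by omega)]
    omega
  by_cases c15 : t = 10 * m + 5
  · refine ⟨2 * m - 1, by omega, by omega, Or.inr ⟨by omega, Or.inl ?_⟩⟩
    rw [s2_15 m _ hm (by omega)]
    omega
  by_cases c16 : t = 10 * m + 6
  · refine ⟨2 * m, by omega, by omega, Or.inr ⟨by omega, Or.inl ?_⟩⟩
    rw [s2_16 m _ hm (by omega)]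
    omega
  by_cases c17 : t ≤ 12 * m + 3
  · refine ⟨t - 10 * m - 6, by omega, by omega, Or.inr ⟨by omega, Or.inr ?_⟩⟩
    rw [s2_17 m _ hm (by omega) (by omega)]
    omega
  by_cases c18 : t = 12 * m + 4
  · refine ⟨4 * m - 1, by omega, by omega, Or.inr ⟨by omega, Or.inr ?_⟩⟩
    rw [s2_18 m _ hm (by omega)]
    omega
  by_cases c19 : t = 12 * m + 5
  · refine ⟨4 * m, by omega, by omega, Or.inl ?_⟩
    rw [s2_19 m _ hm (by omega)]
    omega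
  by_cases c20 : t = 12 * m + 6
  · refine ⟨2 * m, by omega, by omega, Or.inr ⟨by omega, Or.inr ?_⟩⟩
    rw [s2_20 m _ hm (by omega)]
    omega
  by_cases c21 : t ≤ 14 * m + 4
  · refine ⟨2 * m + 1 + (t - 12 * m - 7), by omega, by omega, Or.inr ⟨by omega, Or.inr ?_⟩⟩
    rw [s2_21 m _ hm (by omega) (by omega)]
    omega
  by_cases c22 : t = 14 * m + 5
  · refine ⟨4 * m - 1, by omega, by omega, Or.inl ?_⟩
    rw [s2_22 m _ hm (by omega)]
    omega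
  by_cases c23 : t = 14 * m + 6
  · refine ⟨4 * m - 1, by omega, by omega, Or.inr ⟨by omega, Or.inl ?_⟩⟩
    rw [s2_23 m _ hm (by omega)]
    omega
  refine ⟨2 * m, by omega, by omega, Or.inl ?_⟩
  rw [s2_24 m _ hm (by omega)]
  omega

end Pool.Agent.Helper36.LadderLabels
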